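import Pool.Agent.Helper79.EE.Main
import Pool.Agent.Helper79.AA.StatA
import Pool.Agent.Helper79.GA.StatH

/-!
# MP_290158_ag: period relations at almost all algebraic points of bounded degree, uniformly in their degree

Definitions are in `Pool.Agent.Helper79.AA.StatA` (`polyVal`, `FinConvexCover`, `RelPoly`),
`Pool.Agent.Helper79.GA.StatG` (`FunctionForms`, `SubTensor`, `IsSolution`, `IsPeriodST`),
`Pool.Agent.Helper79.GA.StatH` (`Families`), `Pool.Agent.Helper79.CU.StatC` (`tens`, `tpow`,
`IsBranchOf`), `Pool.Agent.Helper79.GX.KDefs` (`kapC`, `evC`, `BFibreC`, `HasRelationC`) and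
`Pool.Agent.Helper64.Per.Defs` (`Qbar`, `ZClosure`, `evK`).
-/

open Polynomial Pool.Agent.Helper79.AA Pool.Agent.Helper79.CU Pool.Agent.Helper79.GA
  Pool.Agent.Helper79.GX Pool.Agent.Helper64.Per

namespace Pool.Agent.Results.MP_290158_ag.AlgebraicPoints

/-- Let `κ` be a number field and `F` finitely many families `Φ_s` of varieties over `κ` with parameter
`t`, of dimensions `d_s`, given by their function fields `L_s`, with differential forms of degree `d_s`
whose classes are a basis of a Gauss-Manin stable part of the relative de Rham cohomology of `L_s` in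
degree `d_s`; let `E` be a sub-connection of the `r`-th tensor power of the direct sum of these
connections, with basis `w^l ω_x`, `l < μ`, over the `t`-line (that is with basis `ω_x` over a curve
`S` of degree `μ` over the line with coordinate `w`). Let `U` be a connected open set, `(t, w t)`,
`t ∈ U`, a branch of `S`, `P` a matrix of periods of the `ω_x` along this branch with `det P ≠ 0`, and `V` a
set contained in finitely many convex open subsets of `U` (for example a compact subset of `U`; or `V = U` if
`U` is the plane minus finitely many parallel closed rays). Then for every `D ≥ 1` there is a number `a` such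
that for all natural numbers `δ` and `X ≥ 1`, of the `(2X+1)^n`, `n = (D+1) [κ : ℚ]`, polynomials
`F = ∑_k (∑_j a_(k,j) ω_j) t^k` of degree at most `D` over `κ` with integers `|a_(k,j)| ≤ X`, at most
`exp ((δ+2)^a) X^(n - 1/(δ+2)^a)` have a root `t` in `V` such that there is a relation of degree at most `δ`
over `κ(s)` at the point `s = (t, w t)` of `S`. (The bound is `o(X^n)` also for `δ` growing like a small power of
`log X`.) -/
theorem result {κ : IntermediateField ℚ Qbar} [FiniteDimensional ℚ κ] {F : Families κ}
    {μ r : ℕ} {ι : Type} [Fintype ι] [DecidableEq ι] [Nonempty ι] (E : F.Sub μ r ι)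
    {U : Set ℂ} (hU : IsOpen U) (hU' : IsPreconnected U) {w : ℂ → ℂ} (hw : IsBranchOf κ U μ w)
    {P : ℂ → Matrix ι ι ℂ} (hP : E.IsPeriod U w P) (hdet : ∀ t ∈ U, IsUnit (P t).det)
    {V : Set ℂ} (hV : FinConvexCover U V) {J : Type} [Fintype J] (ω : Module.Basis J ℚ κ)
    {D : ℕ} (hD : 1 ≤ D) :
    ∃ a : ℕ, ∀ δ X : ℕ, 1 ≤ X → ((RelPoly ω U V w P δ D X).ncard : ℝ) ≤
      Real.exp (((δ : ℝ) + 2) ^ a) *
        (X : ℝ) ^ ((((D + 1) * Module.finrank ℚ κ : ℕ) : ℝ) - 1 / ((δ : ℝ) + 2) ^ a) :=
  Pool.Agent.Helper79.EE.mainE F.T_ne (tame_fam F.T_ne F.Φ) E hU hU' hw hP hdet hV ω hD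

end Pool.Agent.Results.MP_290158_ag.AlgebraicPoints
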