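import Pool.Agent.Helper79.GB.Coef
import Pool.Agent.Helper79.GB.FMain
import Pool.Agent.Helper79.GB.StatR

/-!
# MP_290158_ag: period relations over bases of any dimension, uniformly in their degree

Definitions are in `Pool.Agent.Helper79.GB.Defs` (`IsPeriodMap`), `Pool.Agent.Helper79.GB.StatR` (`RelPointC`),
`Pool.Agent.Helper79.GB.Par` (`Idx`, `polyC`, `denC`, `pointC`), `Pool.Agent.Helper79.GB.Coef` (`basC`), `Pool.Agent.Helper79.FX.Defs` (`NextIn`, `Reach`),
`Pool.Agent.Helper79.HH.StatM` (`Element`, `Element.Next`), `Pool.Agent.Helper79.BB.StatM` (`FunctionFormsM`, `SubTensorM`, `pd`,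
`IsSolutionM`, `IsPeriodM`, `IsBranchM`, `FamiliesM`, `kapM`, `evP`, `BFibreM`, `HasRelationM`), `Pool.Agent.Helper79.CU.StatC` (`tens`, `tpow`) and
`Pool.Agent.Helper64.Per.Defs` (`Qbar`, `ZClosure`, `evK`).
-/

open Pool.Agent.Helper79.BB Pool.Agent.Helper79.HH Pool.Agent.Helper79.FX
  Pool.Agent.Helper79.GB Pool.Agent.Helper64.Per

namespace Pool.Agent.Results.MP_290158_ag.AllBases

/-- Let `κ` be a number field and `F` finitely many families `Φ_s` of varieties over `κ` with parameters
`t_1, …, t_m`, of dimensions `d_s`, given by their function fields `L_s`, with differential forms of degree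
`d_s` whose classes are a basis of a Gauss-Manin stable part of the relative de Rham cohomology of `L_s`
in degree `d_s`; let `E` be a sub-connection of the `r₀`-th
tensor power of the direct sum of these connections, with basis `w^l ω_x`, `l < μ`, over the `t`-space (that
is with basis `ω_x` over a variety `S₀` of degree `μ` over the `m`-dimensional affine space with coordinate
`w`). Let `S₀` be geometrically irreducible and finite étale over the complement of a hypersurface `S = 0`, `a = (U, w, P)`
a branch `t ↦ (t, w t)` of `S₀` over a connected open set `U`, with a matrix `P` of periods of the `ω_x` along this branch, and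
let `E` come from a local system of `κ`-vector spaces (for instance of lattices) over `S₀`, of which `P` is the period matrix:
the branch and `P` can be continued along all paths in the complement of `S = 0`, over a closed path in `S₀` `P` is multiplied
by a matrix in `GL r` over `κ`, and `det P ≠ 0` (`IsPeriodMap`). Let `D ≥ 1` and `e` be
natural numbers, `ω_j` a basis of `κ` over `ℚ`, and `N` a finite set of pairs `(k, j)`, containing one of the
pairs `(0, j)`. Then there is a number `A` such that for all natural numbers `δ` and `X ≥ 1`, of the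
`(2X+1)^n`, `n = (D + 1 + m (e + 1)) [κ : ℚ] + |N|`, tuples `(F, G_1, …, G_m, G_0)` of a polynomial
`F = ∑_k (∑_j a_(k,j) ω_j) y^k` of degree at most `D`, polynomials `G_i` of this form of degree at most `e`, and
`G_0 = ∑_((k,j) ∈ N) a_(k,j) ω_j y^k`, all `a_(k,j)` integers with `|a_(k,j)| ≤ X`, at most
`exp ((δ+2)^A) X^(n - 1/(δ+2)^A)` have a root `y` of `F` with `G_0(y) ≠ 0` such that there is a relation of degree at most `δ`
over `κ(s)` at one of the points `s` of `S₀` above `t = (G_1(y) / G_0(y), …, G_m(y) / G_0(y))`, that is for a continuation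
`b = (U', w', P')` of `a` in the complement of `S = 0` with `t ∈ U'` at `s = (t, w' t)`. (For `e = 0` and `N` the set of all
`(0, j)` the points `t` are the points
of `κ^m`, in homogeneous coordinates; for `e = D - 1` all points of degree at most `D` over `κ` are of this
form, with `N = {(0, j)}`, `ω_j = 1`, that is with an integer as denominator, or with larger `N`. The bound is
`o(X^n)` also for `δ` growing like a small power of `log X`.) -/
theorem result {κ : IntermediateField ℚ Qbar} [FiniteDimensional ℚ κ] {m : ℕ} (hm : 1 ≤ m)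
    {F : FamiliesM κ m} {μ r₀ r : ℕ} (E : F.Sub μ r₀ (Fin r)) {S : MvPolynomial (Fin m) κ}
    {a : Element m (Fin r)} (h : IsPeriodMap κ (S.map (algebraMap κ ℂ)) a) (hw : IsBranchM κ a.U μ a.w)
    (hP : E.IsPeriod a.U a.w a.P) {J : Type} [Fintype J] (ω : Module.Basis J ℚ κ)
    {D : ℕ} (hD : 1 ≤ D) (e : ℕ) (N : Finset (ℕ × J)) (hN : ∃ j, (0, j) ∈ N) :
    ∃ A : ℕ, ∀ δ X : ℕ, 1 ≤ X → ((RelPointC (basC ω) N S a δ D e X).ncard : ℝ) ≤
      Real.exp (((δ : ℝ) + 2) ^ A) *
        (X : ℝ) ^ ((((D + 1 + m * (e + 1)) * Module.finrank ℚ κ + N.card : ℕ) : ℝ) -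
          1 / ((δ : ℝ) + 2) ^ A) :=
  relG_count hm E h hw hP ω hD e N hN

end Pool.Agent.Results.MP_290158_ag.AllBases
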