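import Pool.Agent.Helper79.UI.Main2
import Pool.Agent.Helper79.GA.StatH

/-!
# MP_290158_ag: period relations of bounded degree for all families of varieties, uniformly in the degree

Definitions are in `Pool.Agent.Helper79.GA.StatG` (`FunctionForms`, `SubTensor`, `mobv`, `IsSolution`,
`IsPeriodST`), `Pool.Agent.Helper79.GA.StatH` (`LargeIn`, `RelAt`, `Families`),
`Pool.Agent.Helper79.CU.StatC` (`tens`, `tpow`, `IsBranchOf`),
`Pool.Agent.Helper79.GX.KDefs` (`kapC`, `evC`, `BFibreC`, `HasRelationC`) and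
`Pool.Agent.Helper64.Per.Defs` (`Qbar`, `ZClosure`, `evK`).

Joint work of the seats helper1, 4, 7-15, 21, 23-25, 27, 29, 32-35, 37, 42, 43, 45, 49, 52, 54-59, 62-64, 67, 71, 75,
76, 79, 80, 84, 86-88, 90, 91, 95, 97.
-/

open Polynomial Pool.Agent.Helper79.CU Pool.Agent.Helper79.GA Pool.Agent.Helper79.GX
  Pool.Agent.Helper64.Per

namespace Pool.Agent.Results.MP_290158_ag.AllFamilies

/-- Let `κ` be a number field and `F` finitely many families `Φ_s` of varieties over `κ` with parameter
`t`, of dimensions `d_s`, given by their function fields `L_s`, with differential forms of degree `d_s`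
whose classes are a basis of a Gauss-Manin stable part of the relative de Rham cohomology of `L_s` in
degree `d_s`; let `E` be a sub-connection of the `r`-th tensor power of the direct sum of these
connections, with basis `w^l ω_x`, `l < μ`, over the `t`-line (that is with basis `ω_x` over a curve
`S` of degree `μ` over the line with coordinate `w`). Let `g(u) = (a u + b) / (c u + e)` be a Moebius
transformation over `κ` (for example `g(u) = u`), `U` a connected open set which contains `g(u)` for all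
large real `u`, `(t, w t)`, `t ∈ U`, a branch of `S`, and `P` a matrix of periods of the `ω_x` along this
branch with `det P ≠ 0`. Then there is `m` such that for every `δ`, with `θ = 1 / (δ + 2)^m`, the following
holds. For every `k ≥ 1` there are at most `exp (1 / θ)` natural numbers `i` with `k ≤ i ≤ k + k^θ`,
`t = g(i) ∈ U`, for which there is a relation of degree at most `δ` over `κ(s)` at the point `s = (t, w t)` of
`S`, and for every `X ≥ 1` there are at most `exp (1 / θ) X^(1-θ)` such `i ≤ X`. -/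
theorem result {κ : IntermediateField ℚ Qbar} [FiniteDimensional ℚ κ] {F : Families κ}
    {μ r : ℕ} {ι : Type} [Fintype ι] [DecidableEq ι] [Nonempty ι] (E : F.Sub μ r ι)
    {a b c e : κ} (hg : a * e - b * c ≠ 0) {U : Set ℂ} (hU : IsOpen U) (hU' : IsPreconnected U)
    (hx : LargeIn a b c e U) {w : ℂ → ℂ} (hw : IsBranchOf κ U μ w)
    {P : ℂ → Matrix ι ι ℂ} (hP : E.IsPeriod U w P) (hdet : ∀ t ∈ U, IsUnit (P t).det) :
    ∃ m : ℕ, ∀ δ : ℕ,
      (∀ k : ℕ, 1 ≤ k → (Set.ncard {i : ℕ | k ≤ i ∧
        (i : ℝ) ≤ k + (k : ℝ) ^ (1 / ((δ : ℝ) + 2) ^ m) ∧ i ∈ RelAt a b c e U w P δ} : ℝ) ≤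
          Real.exp (((δ : ℝ) + 2) ^ m)) ∧
      ∀ X : ℕ, 1 ≤ X → (Set.ncard {i : ℕ | i ≤ X ∧ i ∈ RelAt a b c e U w P δ} : ℝ) ≤
        Real.exp (((δ : ℝ) + 2) ^ m) * (X : ℝ) ^ (1 - 1 / ((δ : ℝ) + 2) ^ m) := by
  obtain ⟨x₀, hx⟩ := hx
  exact Pool.Agent.Helper79.UI.mainGVU F.T_ne (tame_fam F.T_ne F.Φ) E hg hU hU' hx hw hP hdet

end Pool.Agent.Results.MP_290158_ag.AllFamilies
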