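import Pool.Agent.Helper64.Per2.Twist

/-!
# MP_290158_ag: the degree-bounded statement for families with finite monodromy

Definitions are in `Pool.Agent.Helper64.Per.Defs` and `Pool.Agent.Helper64.Per2.Defs` (and
`sqrtCover` in `Pool.Agent.Helper64.Per2.Twist`).
-/

set_option autoImplicit false

open Polynomial Matrix Pool.Agent.Helper64.Per Pool.Agent.Helper64.Per2

namespace Pool.Agent.Results.MP_290158_ag.FiniteMonodromy

/-- Let `X → S` be a family over an open subset `S` of the affine line whose cohomology `R^j f_* ℚ`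
becomes constant on the connected finite étale cover `T : F(t, u) = 0` of `S`. Its period matrix is
`N(t, u) P₀`, with `N` algebraic over `ℚ̄` and `P₀` constant (`FiniteFamily`).

* For every `δ` and every field `K` of algebraic numbers, the degree-`δ` statement of the problem
  over `κ(s) = K(s)` holds at all points `s` of `S` over `ℚ̄` (the Hodge locus is empty) and for
  all local bases if and only if the polynomials of degree at most `δ` over `ℚ̄` which vanish at
  `P₀` vanish at `P₀ ρ` for all `ρ` in the monodromy group.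
* If not, there is a relation of degree at most `δ` over `ℚ(s)` at infinitely many points `s`, for
  all local bases (which exist). (For `j = 0` one can take `P₀ = 1`, and the condition says that the
  monodromy is trivial.)
* The statement is false for all `δ ≥ 1` if there are matrices `α`, `β` over `ℚ̄` with
  `α P₀ = P₀ β` (for example given by an algebraic correspondence) such that `β` does not commute
  with the monodromy.
* For example it is false for all `δ ≥ 1` and every `P₀` for the family over the punctured line with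
  period matrix `(P₀, P₀; u P₀, -u P₀)`, `u ^ 2 = t` (the Weil restriction of a constant family
  with period matrix `P₀` along this cover; or, with `P₀ = (2πi)^m`, the quadrics
  `x ^ 2 - t y ^ 2 = z_1 w_1 + … + z_m w_m` and `j = 2 m`). -/
theorem result :
    (∀ (f : Cover) (_ : Irreducible f.F) (ι : Type) [Fintype ι] [DecidableEq ι]
      (X : FiniteFamily f ι),
      (∀ (K : IntermediateField ℚ Qbar) (δ : ℕ), X.Holds K δ ↔ X.Stable δ) ∧
      (∀ δ : ℕ, ¬ X.Stable δ → {s : Qbar | (s : ℂ) ∈ f.S ∧ Nonempty (f.Branch (s : ℂ)) ∧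
        ∀ (b : f.Branch (s : ℂ)) (k : Fin f.deg) (g : GL ι ℚ) (κ : IntermediateField ℚ Qbar),
          s ∈ κ → HasRelation b.U (X.P b k g) (s : ℂ) κ δ}.Infinite) ∧
      (∀ α β : Matrix ι ι Qbar,
        α.map (algebraMap Qbar ℂ) * X.P₀ = X.P₀ * β.map (algebraMap Qbar ℂ) →
        ∀ ρ ∈ X.Mono,
          toC ρ * β.map (algebraMap Qbar ℂ) ≠ β.map (algebraMap Qbar ℂ) * toC ρ →
        ∀ δ : ℕ, 1 ≤ δ → ¬ X.Stable δ)) ∧
    (∀ (ι : Type) [Fintype ι] [DecidableEq ι] [Nonempty ι] (P₀ : Matrix ι ι ℂ),
      IsUnit P₀.det → ∃ X : FiniteFamily sqrtCover (ι ⊕ ι),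
        (∀ t u : ℂ, evN X.N t u * X.P₀ = fromBlocks P₀ P₀ (u • P₀) (-(u • P₀))) ∧
        ∀ (K : IntermediateField ℚ Qbar) (δ : ℕ), 1 ≤ δ → ¬ X.Holds K δ) := by
  refine ⟨fun f hf ι _ _ X => ⟨fun K δ => X.holds_iff hf K δ, fun δ h => ?_,
    fun α β hαβ ρ hρ hne δ hδ => X.not_stable_of_endomorphism hαβ hρ hne hδ⟩,
    fun ι _ _ _ P₀ hP₀ => ⟨twoFamily P₀ hP₀, fun t u => evN_twoN_mul t u P₀, fun K δ hδ h => ?_⟩⟩
  · exact (X.infinite_of_not_stable hf h).mono
      (fun s hs => ⟨hs.1, f.exists_branch hs.1, hs.2⟩)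
  · exact twoFamily_not_stable P₀ hP₀ hδ
      (((twoFamily P₀ hP₀).holds_iff sqrt_irreducible K δ).1 h)

end Pool.Agent.Results.MP_290158_ag.FiniteMonodromy
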